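import Pool.Agent.L7h49.WN.Def

set_option autoImplicit false

/-!
# Project WN, part LIP
-/

noncomputable section

namespace Pool.Agent.L7h51.WN

open Pool.Agent.L7h49.WN

theorem one_copy (hP : S_POT) (c u : ℝ) (hcu : c ^ 2 + u ^ 2 = 1) :
    ∃ h : ℤ → ℤ → ℝ, (∀ k i : ℤ, |h k i - ((k : ℝ) * c + ((k : ℝ) / 2 + (i : ℝ)) * u)| ≤ 20) ∧
      (∀ k i, h (k + 1) i - h k i ≤ 1 + max (a k) 0) ∧
      (∀ k i, h k i - h (k + 1) i ≤ 1 + max (a k) 0) ∧
      (∀ k i, h (k + 1) (i - 1) - h k i ≤ 1 + max (-a k) 0) ∧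
      (∀ k i, h k i - h (k + 1) (i - 1) ≤ 1 + max (-a k) 0) := by
  have hu : |u| ≤ 1 := by
    rw [abs_le]
    constructor <;> nlinarith [sq_nonneg c, sq_nonneg u]
  rcases le_or_gt 0 c with hc | hc
  · have hcs : c = √(1 - u ^ 2) := by
      rw [show 1 - u ^ 2 = c ^ 2 by linarith, Real.sqrt_sq hc]
    obtain ⟨H, h1, h2, h3, h4, h5, -⟩ := hP.2 u hu
    refine ⟨fun k i => H k + i * u, ?_, ?_, ?_, ?_, ?_⟩
    · intro k i
      have := h1 k
      rw [← hcs] at this
      have e : (H k + (i : ℝ) * u) - ((k : ℝ) * c + ((k : ℝ) / 2 + (i : ℝ)) * u)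
          = H k - k * (c + u / 2) := by ring
      show |(H k + (i : ℝ) * u) - _| ≤ 20
      rw [e]; exact this
    · intro k i
      have := h2 k
      show (H (k + 1) + (i : ℝ) * u) - (H k + (i : ℝ) * u) ≤ _
      linarith
    · intro k i
      have := h4 k
      have m := le_max_right (a k) 0
      show (H k + (i : ℝ) * u) - (H (k + 1) + (i : ℝ) * u) ≤ _
      linarith
    · intro k i
      have := h3 k
      show (H (k + 1) + ((i - 1 : ℤ) : ℝ) * u) - (H k + (i : ℝ) * u) ≤ _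
      push_cast
      linarith
    · intro k i
      have := h5 k
      have m := le_max_right (-a k) 0
      show (H k + (i : ℝ) * u) - (H (k + 1) + ((i - 1 : ℤ) : ℝ) * u) ≤ _
      push_cast
      linarith
  · have hcs : c = -√(1 - (-u) ^ 2) := by
      rw [show 1 - (-u) ^ 2 = (-c) ^ 2 by linarith [neg_sq u, neg_sq c], Real.sqrt_sq (by linarith)]
      ring
    obtain ⟨H, h1, h2, h3, h4, h5, -⟩ := hP.2 (-u) (by rwa [abs_neg])
    refine ⟨fun k i => -H k + i * u, ?_, ?_, ?_, ?_, ?_⟩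
    · intro k i
      have := h1 k
      have e : (-H k + (i : ℝ) * u) - ((k : ℝ) * c + ((k : ℝ) / 2 + (i : ℝ)) * u)
          = -(H k - k * (√(1 - (-u) ^ 2) + (-u) / 2)) := by
        rw [hcs]
        ring
      show |(-H k + (i : ℝ) * u) - _| ≤ 20
      rw [e, abs_neg]; exact this
    · intro k i
      have := h4 k
      have m := le_max_right (a k) 0
      show (-H (k + 1) + (i : ℝ) * u) - (-H k + (i : ℝ) * u) ≤ _
      linarith
    · intro k i
      have := h2 k
      show (-H k + (i : ℝ) * u) - (-H (k + 1) + (i : ℝ) * u) ≤ _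
      linarith
    · intro k i
      have := h5 k
      have m := le_max_right (-a k) 0
      show (-H (k + 1) + ((i - 1 : ℤ) : ℝ) * u) - (-H k + (i : ℝ) * u) ≤ _
      push_cast
      linarith
    · intro k i
      have := h3 k
      show (-H k + (i : ℝ) * u) - (-H (k + 1) + ((i - 1 : ℤ) : ℝ) * u) ≤ _
      push_cast
      linarith

theorem norm_zeta : ‖zeta‖ = 1 := by
  unfold zeta
  rw [norm_div]
  have h1 : ‖(1 + Complex.I : ℂ)‖ = √2 := by
    rw [Complex.norm_def, Complex.normSq_apply]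
    congr 1
    simp
    norm_num
  have h2 : ‖((√2 : ℝ) : ℂ)‖ = √2 := by
    rw [Complex.norm_real, Real.norm_of_nonneg (Real.sqrt_nonneg 2)]
  rw [h1, h2]
  exact div_self (by positivity)

theorem s_LIP (hP : S_POT) : S_LIP := by
  classical
  intro e he
  have key : ∀ s : Fin 4, ∃ h : ℤ → ℤ → ℝ,
      (∀ k i : ℤ, |h k i - (pos (s, k, i) * (starRingEnd ℂ) e).re| ≤ 20) ∧
      (∀ k i, h (k + 1) i - h k i ≤ 1 + max (a k) 0) ∧
      (∀ k i, h k i - h (k + 1) i ≤ 1 + max (a k) 0) ∧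
      (∀ k i, h (k + 1) (i - 1) - h k i ≤ 1 + max (-a k) 0) ∧
      (∀ k i, h k i - h (k + 1) (i - 1) ≤ 1 + max (-a k) 0) := by
    intro s
    set e' : ℂ := zeta ^ (s : ℕ) * (starRingEnd ℂ) e with he'
    have hn : ‖e'‖ = 1 := by
      rw [he', norm_mul, norm_pow, norm_zeta, one_pow, one_mul, RCLike.norm_conj, he]
    have hsq : e'.re ^ 2 + (-e'.im) ^ 2 = 1 := by
      have h1 := Complex.sq_norm e'
      rw [hn, Complex.normSq_apply] at h1
      nlinarith
    obtain ⟨h, h1, h2⟩ := one_copy hP e'.re (-e'.im) hsq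
    refine ⟨h, ?_, h2⟩
    intro k i
    have := h1 k i
    have e1 : (pos (s, k, i) * (starRingEnd ℂ) e).re
        = (k : ℝ) * e'.re + ((k : ℝ) / 2 + (i : ℝ)) * (-e'.im) := by
      have : pos (s, k, i) * (starRingEnd ℂ) e
          = (((k : ℝ) : ℂ) + (((k : ℝ) / 2 + (i : ℝ) : ℝ) : ℂ) * Complex.I) * e' := by
        rw [he']
        unfold pos
        push_cast
        ring
      rw [this]
      simp [Complex.add_re, Complex.mul_re, Complex.add_im, Complex.mul_im]
      ring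
    rw [e1]
    exact this
  choose h h1 h2 h3 h4 h5 using key
  refine ⟨fun v => h v.1 v.2.1 v.2.2, ?_, ?_⟩
  · rintro ⟨s, k, i⟩
    exact h1 s k i
  · rintro ⟨s, k, i⟩ ⟨t, l, j⟩ hadj
    show h s k i - h t l j ≤ om (s, k, i) (t, l, j)
    unfold om
    dsimp only
    split_ifs with c1 c2 c3 c4
    · obtain ⟨rfl, rfl, rfl⟩ := c1
      exact h3 s k _
    · obtain ⟨rfl, rfl, rfl⟩ := c2
      exact h2 s l _
    · obtain ⟨rfl, rfl, rfl⟩ := c3
      exact h5 s k i
    · obtain ⟨rfl, rfl, rfl⟩ := c4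
      exact h4 s l j
    · have g1 := abs_le.1 (h1 s k i)
      have g2 := abs_le.1 (h1 t l j)
      have g3 : ((pos (s, k, i) - pos (t, l, j)) * (starRingEnd ℂ) e).re ≤ 2 := by
        refine (Complex.re_le_norm _).trans ?_
        rw [norm_mul, RCLike.norm_conj, he, mul_one]
        exact hadj.2
      rw [sub_mul, Complex.sub_re] at g3
      linarith [g1.2, g2.1]

end Pool.Agent.L7h51.WN
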